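import Pool.Agent.U72.CMO.Stm

/-!
# Basic lemmas on `cmv`
-/

set_option autoImplicit false

namespace Pool.Agent.U72.CMO

open Finset
open scoped Classical
open Pool.Agent.W76.MO

@[simp] theorem cmv_one (v : ℕ → ℝ) : cmv v 1 = 1 := by simp [cmv]

theorem cmv_prime (v : ℕ → ℝ) {p : ℕ} (hp : p.Prime) : cmv v p = v p := by
  simp [cmv, Nat.primeFactorsList_prime hp]

theorem cmv_mul (v : ℕ → ℝ) {m n : ℕ} (hm : m ≠ 0) (hn : n ≠ 0) :
    cmv v (m * n) = cmv v m * cmv v n := by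
  unfold cmv
  rw [((Nat.perm_primeFactorsList_mul hm hn).map v).prod_eq, List.map_append, List.prod_append]

theorem cmv_squarefree (v : ℕ → ℝ) {n : ℕ} (hn : Squarefree n) :
    cmv v n = ∏ p ∈ n.primeFactors, v p := by
  have h := (Nat.squarefree_iff_nodup_primeFactorsList hn.ne_zero).1 hn
  unfold cmv
  rw [Nat.primeFactors, List.prod_toFinset v h]

theorem cmv_eq_prod (v : ℕ → ℝ) (n : ℕ) :
    cmv v n = ∏ p ∈ n.primeFactors, v p ^ n.primeFactorsList.count p := by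
  unfold cmv
  rw [Finset.prod_list_map_count, Nat.primeFactors]

theorem cmv_nonneg (v : ℕ → ℝ) (n : ℕ) (h : ∀ p : ℕ, p.Prime → p ∣ n → 0 ≤ v p) : 0 ≤ cmv v n := by
  unfold cmv
  apply List.prod_nonneg
  intro a ha
  rw [List.mem_map] at ha
  obtain ⟨p, hp, rfl⟩ := ha
  exact h p (Nat.prime_of_mem_primeFactorsList hp) (Nat.dvd_of_mem_primeFactorsList hp)

theorem cmv_mono (v u : ℕ → ℝ) (n : ℕ) (h0 : ∀ p : ℕ, p.Prime → p ∣ n → 0 ≤ v p)
    (h : ∀ p : ℕ, p.Prime → p ∣ n → v p ≤ u p) : cmv v n ≤ cmv u n := by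
  rw [cmv_eq_prod, cmv_eq_prod]
  apply Finset.prod_le_prod
  · intro p hp
    exact pow_nonneg (h0 p (Nat.prime_of_mem_primeFactors hp) (Nat.dvd_of_mem_primeFactors hp)) _
  · intro p hp
    exact pow_le_pow_left₀ (h0 p (Nat.prime_of_mem_primeFactors hp) (Nat.dvd_of_mem_primeFactors hp))
      (h p (Nat.prime_of_mem_primeFactors hp) (Nat.dvd_of_mem_primeFactors hp)) _

theorem one_le_cmv (v : ℕ → ℝ) (n : ℕ) (h : ∀ p : ℕ, p.Prime → p ∣ n → 1 ≤ v p) :
    1 ≤ cmv v n := by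
  rw [cmv_eq_prod]
  have h1 : ∏ p ∈ n.primeFactors, (1 : ℝ) ≤ ∏ p ∈ n.primeFactors, v p ^ n.primeFactorsList.count p := by
    apply Finset.prod_le_prod
    · intro p _; exact zero_le_one
    · intro p hp
      exact one_le_pow₀ (h p (Nat.prime_of_mem_primeFactors hp) (Nat.dvd_of_mem_primeFactors hp))
  simpa using h1

/-- products of functions -/
theorem cmv_mul_fun (v u : ℕ → ℝ) (n : ℕ) : cmv (fun p => v p * u p) n = cmv v n * cmv u n := by
  rw [cmv_eq_prod, cmv_eq_prod, cmv_eq_prod, ← Finset.prod_mul_distrib]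
  exact Finset.prod_congr rfl fun p _ => mul_pow _ _ _

theorem cmv_id {n : ℕ} (hn : n ≠ 0) : cmv (fun p => (p : ℝ)) n = n := by
  unfold cmv
  have h := Nat.prod_primeFactorsList hn
  have h2 : ((n.primeFactorsList.prod : ℕ) : ℝ) = n := by rw [h]
  rw [← h2, Nat.cast_list_prod]

theorem cmv_rpow (s : ℝ) {n : ℕ} (hn : n ≠ 0) : cmv (fun p => (p : ℝ) ^ s) n = (n : ℝ) ^ s := by
  induction n using Nat.recOnMul with
  | zero => exact absurd rfl hn
  | one => simp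
  | prime p hp => exact cmv_prime _ hp
  | mul a b ha hb =>
    have ha0 : a ≠ 0 := left_ne_zero_of_mul hn
    have hb0 : b ≠ 0 := right_ne_zero_of_mul hn
    rw [cmv_mul _ ha0 hb0, ha ha0, hb hb0]
    push_cast
    rw [Real.mul_rpow (by positivity) (by positivity)]

theorem cmv_congr (v u : ℕ → ℝ) (n : ℕ) (h : ∀ p : ℕ, p.Prime → p ∣ n → v p = u p) :
    cmv v n = cmv u n := by
  rw [cmv_eq_prod, cmv_eq_prod]
  exact Finset.prod_congr rfl fun p hp => by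
    rw [h p (Nat.prime_of_mem_primeFactors hp) (Nat.dvd_of_mem_primeFactors hp)]

theorem E2c_nonneg (E : Env) (j : ℕ) (hu : ∀ p, 0 ≤ E.gu j p) (hh : ∀ p, 0 ≤ E.gh j p) (n : ℕ) :
    0 ≤ E2c E j n := by
  unfold E2c
  apply cmv_nonneg
  intro p _ _
  have : 0 ≤ E.g j p := by unfold Env.g; exact add_nonneg (hu p) (hh p)
  positivity

theorem E2c_mul (E : Env) (j : ℕ) {m n : ℕ} (hm : m ≠ 0) (hn : n ≠ 0) :
    E2c E j (m * n) = E2c E j m * E2c E j n := cmv_mul _ hm hn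

/-- crude bound, from bounds at the primes -/
theorem E2c_le (E : Env) {j : ℕ} (h0 : ∀ p : ℕ, 0 ≤ E.gu j p) (h0' : ∀ q : ℕ, 0 ≤ E.gh j q)
    (hf : ∀ p : ℕ, p.Prime → 1 + 2 * (p * E.g j p) ≤ (p : ℝ) ^ (9 * E.δ)) {m : ℕ} (hm : m ≠ 0) :
    E2c E j m ≤ (m : ℝ) ^ (9 * E.δ) := by
  rw [← cmv_rpow _ hm]
  unfold E2c
  apply cmv_mono
  · intro p _ _
    have : 0 ≤ E.g j p := by unfold Env.g; exact add_nonneg (h0 p) (h0' p)
    positivity
  · intro p hp _
    exact hf p hp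

end Pool.Agent.U72.CMO
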