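import Pool.Agent.W76.MO.Defs

/-!
# MP_768c9c_nt (project CM): completely multiplicative version of the construction in
`Pool.Agent.W76.MO` (MP_a187e6_nt).  Definitions and statements of the packages.

`E : Env`, `cell`, `hh`, `nc`, `Rough`, `Env.Bad`, `Env.Host`, `Env.gu`, `Env.gh`, `Env.g`, `Env.w`
are those of `Pool.Agent.W76.MO.Defs`.  New: products over the prime factors WITH multiplicity
(`cmv`), and sums over the rough numbers of a cell which are NOT squarefree (`ns`).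
-/

set_option autoImplicit false

namespace Pool.Agent.U72.CMO

open Finset Filter Topology
open scoped Classical
open Pool.Agent.W76.MO

/-- the completely multiplicative function with values `v p` at the primes (for `n ≥ 1`) -/
noncomputable def cmv (v : ℕ → ℝ) (n : ℕ) : ℝ := (n.primeFactorsList.map v).prod

/-- `∏_{p^a || n} (1 + 2 p g(p))^a` -/
noncomputable def E2c (E : Env) (j n : ℕ) : ℝ := cmv (fun p => 1 + 2 * (p * E.g j p)) n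

/-- the rough elements of a cell which are not squarefree -/
noncomputable def ns (E : Env) (R i k : ℕ) : Finset ℕ :=
  (cell E.δ i k).filter (fun n => ¬ Squarefree n ∧ Rough R n)

/-- (ESC) the Euler product sum over all rough numbers is small -/
def ESC (E : Env) : Prop := ∀ η : ℝ, 0 < η → ∃ R₀ : ℕ, ∀ R : ℕ, R₀ ≤ R → ∃ J : ℕ, ∀ j : ℕ, J ≤ j →
  ∀ M : ℕ, ∑ t ∈ (Icc 2 M).filter (fun t => Rough R t),
    E2c E j t / t * (t : ℝ) ^ (-E.δ / 2) ≤ η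

/-- (UPC) large control primes of the first kind, numbers which are not squarefree -/
def UPC (E : Env) : Prop := ∃ R₀ : ℕ, ∀ R : ℕ, R₀ ≤ R → ∃ J : ℕ, ∀ j : ℕ, J ≤ j → ∀ i : ℕ, j ≤ i →
  ∀ k : ℕ, k < nc E.δ i →
    ∑ n ∈ ns E R i k, ∑ p ∈ n.primeFactors.filter (fun p : ℕ => (2 : ℝ) ^ (3 / 5 * (i : ℝ)) < p),
      E.gu j p * (E2c E j (n / p) / ((n / p : ℕ) : ℝ)) ≤ E.w i / 256

/-- (HPC) host primes `> 2^(i/20)`, numbers which are not squarefree -/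
def HPC (E : Env) : Prop := ∃ R₀ : ℕ, ∀ R : ℕ, R₀ ≤ R → ∃ J : ℕ, ∀ j : ℕ, J ≤ j → ∀ i : ℕ, j ≤ i →
  ∀ k : ℕ, k < nc E.δ i →
    ∑ n ∈ ns E R i k, ∑ q ∈ n.primeFactors.filter (fun q : ℕ => (2 : ℝ) ^ (1 / 20 * (i : ℝ)) < q),
      E.gh j q * (E2c E j (n / q) / ((n / q : ℕ) : ℝ)) ≤ E.w i / 2048

/-- (SPC) contribution of the small control primes, with multiplicity -/
def SPC (E : Env) : Prop := ∃ J : ℕ, ∀ j : ℕ, J ≤ j → ∀ i : ℕ, j ≤ i → ∀ k : ℕ, k < nc E.δ i →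
    ∑ n ∈ cell E.δ i k, (1 / (n : ℝ)) * cmv (fun p => 1 + 2 * (p * E.gs j i p)) n ≤ E.w i / 256

/-- (AC) control primes of the first kind `≤ 2^(3i/5)`, with multiplicity -/
def AC (E : Env) : Prop := ∃ J : ℕ, 1 ≤ J ∧ ∀ j : ℕ, J ≤ j → ∀ i : ℕ, j ≤ i →
    ∀ n : ℕ, 1 ≤ n → n ≤ 2 ^ (i + 1) →
      cmv (fun p => if (p : ℝ) ≤ (2 : ℝ) ^ (3 / 5 * (i : ℝ)) then 1 + 2 * (p * E.gu j p) else 1) n ≤
        (2 : ℝ) ^ (E.δ / 2 * i) / (i : ℝ) ^ 50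

/-- (BC) host primes `≤ 2^(i/20)`, with multiplicity -/
def BC (E : Env) : Prop := ∃ J : ℕ, 1 ≤ J ∧ ∀ j : ℕ, J ≤ j → ∀ i : ℕ, j ≤ i → ∀ k : ℕ,
    k < nc E.δ i → ∑ n ∈ cell E.δ i k,
      cmv (fun p => if (p : ℝ) ≤ (2 : ℝ) ^ (1 / 20 * (i : ℝ)) then 1 + 2 * (p * E.gh j p) else 1) n ≤
        5 * hh E.δ i

/-- the part of the host sum over non-squarefree numbers which comes from the bad cell `(i', k')` -/
noncomputable def HTc (E : Env) (j R i k i' k' : ℕ) (P : ℕ → ℕ → Prop) : ℝ :=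
  ∑ u ∈ ((E.Host j i' k') ×ˢ (ns E R i k)).filter (fun u : ℕ × ℕ =>
      lp u.1 ∣ u.2 ∧ (2 : ℝ) ^ (1 / 20 * (i : ℝ)) < lp u.1 ∧ P u.1 u.2),
    E.w i' / ((E.Host j i' k').card : ℝ) * ((u.1 : ℝ) / u.2) * E2c E j (u.2 / lp u.1)

/-- (H1C) hosts of cells of scale `< (1-τ) i` -/
def H1C (E : Env) : Prop := ∃ J : ℕ, ∀ j : ℕ, J ≤ j → ∀ R i k : ℕ, j ≤ i → k < nc E.δ i →
  ∑ i' ∈ (range (2 * i + 3)).filter (fun i' : ℕ => j ≤ i' ∧ (i' : ℝ) < (1 - E.τ) * i),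
    ∑ k' ∈ E.Bad i', HTc E j R i k i' k' (fun _ _ => True) ≤ E.w i / 8192

/-- (HBC) hosts of cells of scale `≥ (1-τ) i`, pairs with `n₁ ∤ n` -/
def HBC (E : Env) : Prop := ∃ J : ℕ, ∀ j : ℕ, J ≤ j → ∀ R i k : ℕ, j ≤ i → k < nc E.δ i →
  ∑ i' ∈ (range (2 * i + 3)).filter (fun i' : ℕ => j ≤ i' ∧ (1 - E.τ) * i ≤ (i' : ℝ)),
    ∑ k' ∈ E.Bad i', HTc E j R i k i' k' (fun a b => ¬ a ∣ b) ≤ E.w i / 8192

/-- (HAC) hosts of cells of scale `≥ (1-τ) i`, pairs with `n₁ ∣ n` -/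
def HAC (E : Env) : Prop := ∃ R₀ : ℕ, ∀ R : ℕ, R₀ ≤ R → ∃ J : ℕ, ∀ j : ℕ, J ≤ j → ∀ i k : ℕ, j ≤ i →
  k < nc E.δ i →
  ∑ i' ∈ (range (2 * i + 3)).filter (fun i' : ℕ => j ≤ i' ∧ (1 - E.τ) * i ≤ (i' : ℝ)),
    ∑ k' ∈ E.Bad i', HTc E j R i k i' k' (fun a b => a ∣ b) ≤ E.w i / 8192

/-! ### the packages -/

/-- package ES -/
def T_ESC : Prop := ∀ E : Env, E.GBounds → ESC E
/-- package UP -/
def T_UPC : Prop := ∀ E : Env, E.GBounds → ESC E → UPC E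
/-- package H1 -/
def T_H1C : Prop := ∀ E : Env, E.HCount → E.GBounds → H1C E
/-- package HB -/
def T_HBC : Prop := ∀ E : Env, E.HCount → E.GBounds → Env.PairB E.τ E.δ → HBC E
/-- package HA -/
def T_HAC : Prop := ∀ E : Env, E.HCount → E.GBounds → ESC E → HAC E
/-- package HX -/
def T_HXC : Prop := ∀ E : Env, E.GBounds → H1C E → HAC E → HBC E → HPC E
/-- package A -/
def T_AC : Prop := ∀ E : Env, E.GBounds → AC E
/-- package B -/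
def T_BC : Prop := ∀ E : Env, E.GBounds → BC E
/-- package SP -/
def T_SPC : Prop := ∀ E : Env, E.GBounds → AC E → BC E → SPC E

/-- the conclusion: a completely multiplicative function with `|S_f(x)| ≤ C x^(-1/2-c)` -/
def ConclC : Prop := ∃ f : ℕ → ℂ, f 1 = 1 ∧ (∀ m n : ℕ, 1 ≤ m → 1 ≤ n → f (m * n) = f m * f n) ∧
  Tendsto (fun N : ℕ => ∑ n ∈ Icc 1 N, f n) atTop (𝓝 0) ∧
  ∃ c C : ℝ, 0 < c ∧ 0 < C ∧ ∀ x : ℝ, 1 ≤ x → ‖partialSum f x‖ ≤ C * x ^ (-(1 / 2 : ℝ) - c)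

end Pool.Agent.U72.CMO
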